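import Pool.Agent.Y749.SF.F

/-!
# The strong pair correlation conjecture in the mean: one-sided bounds suffice

Assume RH.  Let `F(α, T)` be Montgomery's function and `m(α) = min(α, 1)`, which is its known limit
for `0 < α ≤ 1` and its conjectured limit for `α ≥ 1`.

* `F → m` in `L¹(a, A)` for all `0 < a < A` if and only if the positive part of `F - m` tends to `0`
  in `L¹(a, A)` for all `a, A`.
* The same with the negative part, if there are not too many close pairs: for every `ε` the number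
  of pairs (with the diagonal) at distance at most `v` mean spacings is at most
  `(1 + ε v) (T / 2π) log T` for all small fixed `v`.  This weak repulsion is also necessary.
* For every `q > 1`: `F → m` in `L^q(a, A)` for all `a, A` if and only if the `q`-th moments of `F`
  are in the limit at most what is conjectured: `∫_a^A m (F / m) ^ q ≤ ∫_a^A m + o(1)`, where the
  integrand is `F ^ q` for `α ≥ 1`.
* If `F(α, T) ≤ m(α) + o(1)` uniformly in each `[a, A]`, the upper half of the strong pair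
  correlation conjecture, then `F → m` in `L^q(a, A)` for all `q < ∞`.
* In all these cases Montgomery's pair correlation conjecture holds.
* The general principle: let `φ` be convex on `[0, ∞)`, with a strict support line of slope `p ≠ 0` at
  `1`.  Then `∫_a^A m φ(F / m) ≤ φ(1) ∫_a^A m + o(1)` for all `0 < a < A` (for `p < 0` with weak
  repulsion) if and only if `F → m` and `m φ(F / m) → φ(1) m` in all `L¹(a, A)`.  For `p > 0` it is
  quantitative: if the upper bound holds up to `R`, up to `η`, then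
  `∫_a^A (m φ(F / m) - φ(1) m - p (F - m)) ≤ (R η + p / 6) / (R - A) + o(1)` for `A < R`, where the
  integrand is nonnegative and vanishes only if `F = m`.

Everything holds for `T → ∞` along any filter, e.g. along any sequence.

Idea of the proof.  The diagonal pairs and Fejer's kernel of width `R` give
`∫ (R - α) (F - m) ≥ - 1 / 6 - o(1)` over `0 < α < R`; weak repulsion gives
`∫ (R - α) (F - m) ≤ ε R + C + o(1)`.  Integrate the hypothesis with respect to the upper end `A` and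
subtract `p` times this inequality: what remains is the integral of a nonnegative function, with
a weight `R - α`, and it is at most `p / 6` (or `ε R + C`); divide by `R - A` and let `R → ∞`.
-/

open Filter
open Complex (I)

namespace Pool.Agent.Results.MP_00e05b_nt.OneSidedMoments

/-- the nontrivial zeros of `ζ` with ordinate in `(0, T]` -/
def zeros (T : ℝ) : Set ℂ :=
  {s : ℂ | 0 < s.re ∧ s.re < 1 ∧ 0 < s.im ∧ s.im ≤ T ∧ riemannZeta s = 0}

/-- the multiplicity of `s` as a zero of `ζ` -/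
noncomputable def mult (s : ℂ) : ℕ := analyticOrderNatAt riemannZeta s

/-- `N(T; α, β)`: the number of ordered pairs of zeros (counted with multiplicity, the diagonal
included) with ordinates in `(0, T]` whose difference lies in `[2πα / log T, 2πβ / log T]` -/
noncomputable def N (T α β : ℝ) : ℕ :=
  ∑ᶠ s ∈ zeros T, ∑ᶠ s' ∈ {s' : ℂ | s' ∈ zeros T ∧
    2 * Real.pi * α / Real.log T ≤ s.im - s'.im ∧ s.im - s'.im ≤ 2 * Real.pi * β / Real.log T},
      mult s * mult s'

/-- the constant of the pair correlation conjecture, `∫_α^β (1 - (sin πu / πu)²) du + δ(α, β)` -/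
noncomputable def P (α β : ℝ) : ℝ :=
  (∫ u in α..β, (1 - (Real.sin (Real.pi * u) / (Real.pi * u)) ^ 2)) +
    if α ≤ 0 ∧ 0 ≤ β then 1 else 0

/-- `(T / 2π) log T` -/
noncomputable def X (T : ℝ) : ℝ := T / (2 * Real.pi) * Real.log T

/-- Montgomery's pair correlation conjecture along the filter `l` (along `T → ∞` if `l = atTop`) -/
def Montgomery (l : Filter ℝ) : Prop := ∀ α β : ℝ, α < β →
  Asymptotics.IsEquivalent l (fun T => (N T α β : ℝ)) (fun T => P α β * X T)

/-- Montgomery's function `F(α, T)`, the sum of `T^(iα(γ - γ')) w(γ - γ')`, `w(u) = 4 / (4 + u²)`,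
over the pairs of zeros with ordinates in `(0, T]`, divided by `(T / 2π) log T`; it is real -/
noncomputable def F (T α : ℝ) : ℂ :=
  (X T : ℂ)⁻¹ * ∑ᶠ s ∈ zeros T, ∑ᶠ s' ∈ zeros T, (mult s : ℂ) * (mult s' : ℂ) *
    ((T : ℂ) ^ (I * α * (s.im - s'.im)) * (4 / (4 + (s.im - s'.im) ^ 2)))

/-- `F(·, T)` converges in the mean to `min(α, 1)` on all intervals `[a, A]`, `0 < a < A` -/
def L1 (l : Filter ℝ) : Prop := ∀ a A : ℝ, 0 < a → a < A → ∀ ε : ℝ, 0 < ε →
  ∀ᶠ T in l, ∫ α in a..A, |(F T α).re - min α 1| ≤ ε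

/-- for the intervals `[a, A]`, `0 < a < A ≤ R`: the convex moment
`∫_a^A m φ(F / m) dα`, `m = min(α, 1)`, is in the limit at most `φ(1) ∫_a^A m + η` -/
def ConvexUpper (l : Filter ℝ) (φ : ℝ → ℝ) (R η : ℝ) : Prop := ∀ a A : ℝ, 0 < a → a < A → A ≤ R →
  ∀ ε : ℝ, 0 < ε → ∀ᶠ T in l, ∫ α in a..A, min α 1 * φ ((F T α).re / min α 1) ≤
    φ 1 * (∫ α in a..A, min α 1) + η + ε

/-- `F → m` and `m φ(F / m) → φ(1) m` in the mean on all intervals `[a, A]`, `0 < a < A` -/
def MeanConv (l : Filter ℝ) (φ : ℝ → ℝ) : Prop := ∀ a A : ℝ, 0 < a → a < A →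
  ∀ ε : ℝ, 0 < ε → ∀ᶠ T in l, ∫ α in a..A, |(F T α).re - min α 1| ≤ ε ∧
    ∫ α in a..A, |min α 1 * φ ((F T α).re / min α 1) - φ 1 * min α 1| ≤ ε

/-- weak repulsion: not too many pairs of zeros at distance at most `v` mean spacings -/
def WeakRepulsion (l : Filter ℝ) : Prop := ∀ ε : ℝ, 0 < ε → ∃ v₀ : ℝ, 0 < v₀ ∧
  ∀ v : ℝ, 0 < v → v ≤ v₀ → ∀ᶠ T in l, (N T (-v) v : ℝ) ≤ (1 + ε * v) * X T

/-- **The strong pair correlation conjecture in the mean follows from one-sided bounds.** -/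
theorem result (hRH : RiemannHypothesis) (l : Filter ℝ) (hl : l ≤ atTop) :
    -- the positive part
    ((∀ a A : ℝ, 0 < a → a < A → ∀ ε : ℝ, 0 < ε →
      ∀ᶠ T in l, ∫ α in a..A, max ((F T α).re - min α 1) 0 ≤ ε) ↔ L1 l) ∧
    -- the negative part
    (((∀ a A : ℝ, 0 < a → a < A → ∀ ε : ℝ, 0 < ε →
      ∀ᶠ T in l, ∫ α in a..A, max (min α 1 - (F T α).re) 0 ≤ ε) ∧ WeakRepulsion l) ↔ L1 l) ∧
    -- moments
    (∀ q : ℝ, 1 < q → ((∀ R : ℝ, ConvexUpper l (fun t => t ^ q) R 0) ↔
      ∀ a A : ℝ, 0 < a → a < A → ∀ ε : ℝ, 0 < ε →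
        ∀ᶠ T in l, ∫ α in a..A, |(F T α).re - min α 1| ^ q ≤ ε)) ∧
    -- the uniform upper bound
    ((∀ a A : ℝ, 0 < a → a < A → ∀ ε : ℝ, 0 < ε → ∀ᶠ T in l, ∀ α : ℝ, a ≤ α → α ≤ A →
      (F T α).re ≤ min α 1 + ε) → ∀ q : ℝ, 1 < q → ∀ a A : ℝ, 0 < a → a < A →
      ∀ ε : ℝ, 0 < ε → ∀ᶠ T in l, ∫ α in a..A, |(F T α).re - min α 1| ^ q ≤ ε) ∧
    -- the pair correlation conjecture
    (L1 l → Montgomery l) ∧
    -- convex functions
    (∀ (φ : ℝ → ℝ) (p : ℝ), ConvexOn ℝ (Set.Ici 0) φ → ContinuousOn φ (Set.Ici 0) →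
      (∀ t : ℝ, 0 ≤ t → t ≠ 1 → φ 1 + p * (t - 1) < φ t) →
      (0 < p → ((∀ R : ℝ, ConvexUpper l φ R 0) ↔ MeanConv l φ)) ∧
      (p < 0 → (((∀ R : ℝ, ConvexUpper l φ R 0) ∧ WeakRepulsion l) ↔ MeanConv l φ)) ∧
      (0 < p → ∀ R η : ℝ, 1 ≤ R → 0 ≤ η → ConvexUpper l φ R η → ∀ a A : ℝ, 0 < a → a < A →
        A < R → ∀ ε : ℝ, 0 < ε → ∀ᶠ T in l, ∫ α in a..A,
          (min α 1 * φ ((F T α).re / min α 1) - φ 1 * min α 1 - p * ((F T α).re - min α 1)) ≤
            (R * η + p / 6) / (R - A) + ε)) :=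
  Pool.Agent.Y749.SF.P.main hRH l hl

end Pool.Agent.Results.MP_00e05b_nt.OneSidedMoments
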